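import Mathlib
import Pool.Agent.T6.H7.PF.Defs
import Pool.Agent.R851.RR.Energy

set_option autoImplicit false

/-!
Module H1 of project PF (MP_86f7a7_co): the Halasz type inequality relative to a set.
-/

namespace Pool.Agent.T6.H69.PF

open R851RR Finset
open scoped BigOperators Pointwise

section

variable {V : Type*} [AddCommGroup V]

lemma tau_mul_single (g : AddMonoidAlgebra ℝ V) (z : V) (r : ℝ) :
    tau (g * AddMonoidAlgebra.single z r) = g.coeff (-z) * r := by
  classical
  have h := tau_mul_refl g (AddMonoidAlgebra.single (-z) r) (g.coeff.support ∪ {-z})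
    Finset.subset_union_left
  rw [refl_single, neg_neg] at h
  rw [h]
  rw [Finset.sum_eq_single (-z)]
  · rw [AddMonoidAlgebra.coeff_single, Finsupp.single_eq_same]
  · intro x _ hx
    rw [AddMonoidAlgebra.coeff_single, Finsupp.single_apply, if_neg (Ne.symm hx), mul_zero]
  · intro hx
    exact absurd (Finset.mem_union_right _ (Finset.mem_singleton_self _)) hx

/-- the weighted form of `tau_holder` -/
lemma tau_holder_weighted (h : AddMonoidAlgebra ℝ V) (hh : Nn h) (hr : Nn (refl V h)) (s : ℕ) :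
    ∀ (F : ℕ → AddMonoidAlgebra ℝ V), (∀ t, refl V (F t) = F t) → (∀ t, Nn (F t)) →
    tau (h * refl V h * ∏ t ∈ range (2 ^ s), F t) ^ (2 ^ s) ≤
      ∏ t ∈ range (2 ^ s), tau (h * refl V h * F t ^ (2 ^ s)) := by
  induction s with
  | zero => intro F _ _; simp
  | succ s ih =>
    intro F hF hN
    have h2 : 2 ^ (s + 1) = 2 * 2 ^ s := by ring
    rw [h2, prod_pairs, prod_pairs]
    set m := 2 ^ s with hm
    have hG := ih (fun t => F (2 * t) * F (2 * t + 1))
      (fun t => by rw [map_mul, hF, hF]) (fun t => (hN _).mul (hN _))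
    have hPn : Nn (h * refl V h * ∏ t ∈ range m, (F (2 * t) * F (2 * t + 1))) := by
      refine (hh.mul hr).mul ?_
      refine Finset.prod_induction _ Nn (fun a b => Nn.mul) Nn.one fun t _ => (hN _).mul (hN _)
    have hnn : 0 ≤ tau (h * refl V h * ∏ t ∈ range m, (F (2 * t) * F (2 * t + 1))) ^ m :=
      pow_nonneg (hPn 0) _
    calc tau (h * refl V h * ∏ t ∈ range m, (F (2 * t) * F (2 * t + 1))) ^ (2 * m)
        = (tau (h * refl V h * ∏ t ∈ range m, (F (2 * t) * F (2 * t + 1))) ^ m) ^ 2 := by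
          rw [← pow_mul, mul_comm m 2]
      _ ≤ (∏ t ∈ range m, tau (h * refl V h * (F (2 * t) * F (2 * t + 1)) ^ m)) ^ 2 :=
          pow_le_pow_left₀ hnn hG 2
      _ = ∏ t ∈ range m, (tau (h * refl V h * (F (2 * t) * F (2 * t + 1)) ^ m)) ^ 2 := by
          rw [Finset.prod_pow]
      _ ≤ ∏ t ∈ range m, (tau (h * refl V h * F (2 * t) ^ (2 * m)) *
            tau (h * refl V h * F (2 * t + 1) ^ (2 * m))) := by
          refine Finset.prod_le_prod (fun t _ => sq_nonneg _) fun t _ => ?_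
          have hr1 : refl V (F (2 * t) ^ m) = F (2 * t) ^ m := by rw [map_pow, hF]
          have hr2 : refl V (F (2 * t + 1) ^ m) = F (2 * t + 1) ^ m := by rw [map_pow, hF]
          have := tau_cs (h * F (2 * t) ^ m) (h * F (2 * t + 1) ^ m)
          rw [map_mul, map_mul, hr1, hr2] at this
          have e1 : h * F (2 * t) ^ m * (refl V h * F (2 * t + 1) ^ m)
              = h * refl V h * (F (2 * t) * F (2 * t + 1)) ^ m := by
            rw [mul_pow]; ring
          have e2 : ∀ j, h * F j ^ m * (refl V h * F j ^ m) = h * refl V h * F j ^ (2 * m) := by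
            intro j
            rw [two_mul, pow_add]; ring
          rw [e1, e2, e2] at this
          exact this

/-- indicator of a finite set, as a formal sum -/
noncomputable def ind (C : Finset V) : AddMonoidAlgebra ℝ V :=
  ∑ x ∈ C, AddMonoidAlgebra.single x 1

omit [AddCommGroup V] in
lemma ind_coeff [DecidableEq V] (C : Finset V) (x : V) :
    (ind C).coeff x = if x ∈ C then 1 else 0 := by
  unfold ind
  rw [AddMonoidAlgebra.coeff_sum, Finsupp.finsetSum_apply]
  simp only [AddMonoidAlgebra.coeff_single, Finsupp.single_apply]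
  rw [Finset.sum_ite_eq' C x]

omit [AddCommGroup V] in
lemma ind_Nn (C : Finset V) : Nn (ind C) := by
  classical
  intro x
  rw [ind_coeff]
  split_ifs <;> norm_num

lemma refl_Nn {g : AddMonoidAlgebra ℝ V} (hg : Nn g) : Nn (refl V g) := by
  intro x
  rw [refl_coeff]
  exact hg _

/-- the coefficients of the autocorrelation of a set -/
lemma corr_coeff [DecidableEq V] (C : Finset V) (z : V) :
    (ind C * refl V (ind C)).coeff z =
      (((C ×ˢ C).filter (fun p => p.1 - p.2 = z)).card : ℝ) := by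
  have h1 : ind C * refl V (ind C) =
      ∑ p ∈ C ×ˢ C, AddMonoidAlgebra.single (p.1 - p.2) (1 : ℝ) := by
    unfold ind
    rw [map_sum, Finset.sum_mul_sum, Finset.sum_product]
    refine Finset.sum_congr rfl fun x _ => Finset.sum_congr rfl fun y _ => ?_
    rw [refl_single, AddMonoidAlgebra.single_mul_single, one_mul, sub_eq_add_neg]
  rw [h1, AddMonoidAlgebra.coeff_sum, Finsupp.finsetSum_apply]
  simp only [AddMonoidAlgebra.coeff_single, Finsupp.single_apply]
  rw [Finset.sum_boole]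

lemma corr_le [DecidableEq V] (C : Finset V) (z : V) :
    (ind C * refl V (ind C)).coeff z ≤ (C.card : ℝ) := by
  rw [corr_coeff]
  have : ((C ×ˢ C).filter (fun p => p.1 - p.2 = z)).card ≤ C.card := by
    refine Finset.card_le_card_of_injOn Prod.fst ?_ ?_
    · intro p hp
      rw [Finset.mem_coe, Finset.mem_filter, Finset.mem_product] at hp
      exact hp.1.1
    · intro p hp q hq hpq
      rw [Finset.mem_coe, Finset.mem_filter] at hp hq
      have h1 := hp.2
      have h2 := hq.2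
      rw [← hpq, ← h1] at h2
      have : q.2 = p.2 := by
        have := sub_right_inj.1 h2
        exact this
      exact Prod.ext hpq this.symm
  exact_mod_cast this

lemma corr_eq_zero [DecidableEq V] (C : Finset V) (z : V) (hz : z ∉ C - C) :
    (ind C * refl V (ind C)).coeff z = 0 := by
  rw [corr_coeff]
  norm_cast
  rw [Finset.card_eq_zero, Finset.filter_eq_empty_iff]
  intro p hp h
  apply hz
  rw [Finset.mem_product] at hp
  rw [Finset.mem_sub]
  exact ⟨p.1, hp.1, p.2, hp.2, h⟩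

lemma le_corr [DecidableEq V] (A : Finset V) (a a' : V) (ha : a ∈ A) (ha' : a' ∈ A) :
    (A.card : ℝ) ≤ (ind (A + A) * refl V (ind (A + A))).coeff (a - a') := by
  rw [corr_coeff]
  have : A.card ≤ (((A + A) ×ˢ (A + A)).filter (fun p => p.1 - p.2 = a - a')).card := by
    refine Finset.card_le_card_of_injOn (fun x => (a + x, a' + x)) ?_ ?_
    · intro x hx
      rw [Finset.mem_coe, Finset.mem_filter, Finset.mem_product]
      refine ⟨⟨Finset.add_mem_add ha hx, Finset.add_mem_add ha' hx⟩, ?_⟩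
      simp
    · intro x _ x' _ h
      have := congrArg Prod.fst h
      simpa using this
  exact_mod_cast this

/-- the weighted moment of a family of `κ` vectors -/
lemma tau_moment [DecidableEq V] {κ : Type*} [Fintype κ] [DecidableEq κ] (u : κ → V)
    (C : Finset V) (M m : ℕ)
    (hM : ∀ D : Finset (κ → ℤ), (∀ c ∈ D, ∑ i, c i • u i ∈ C - C) → D.card ≤ M) :
    tau (ind C * refl V (ind C) * (∏ i, ker (u i)) ^ m) ≤
      (((Nat.centralBinom m : ℕ) : ℝ)) ^ (Fintype.card κ) * C.card * M := by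
  classical
  rw [← Finset.prod_pow]
  simp_rw [ker_pow]
  rw [Finset.prod_univ_sum]
  have h1 : ∀ p : κ → ℕ, ∏ i, AddMonoidAlgebra.single (((p i : ℤ) - (m : ℤ)) • u i)
      (((2 * m).choose (p i) : ℕ) : ℝ) =
      AddMonoidAlgebra.single (∑ i, ((p i : ℤ) - (m : ℤ)) • u i)
        (∏ i, (((2 * m).choose (p i) : ℕ) : ℝ)) := by
    intro p
    rw [AddMonoidAlgebra.prod_single]
  simp_rw [h1]
  rw [Finset.mul_sum, tau_sum]
  simp_rw [tau_mul_single]
  set P := Fintype.piFinset (fun _ : κ => range (2 * m + 1)) with hP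
  set Z : (κ → ℕ) → V := fun p => ∑ i, ((p i : ℤ) - (m : ℤ)) • u i with hZ
  set P' := P.filter (fun p => Z p ∈ C - C) with hP'
  have hbin : ∀ p : κ → ℕ, (∏ i, (((2 * m).choose (p i) : ℕ) : ℝ)) ≤
      (((Nat.centralBinom m : ℕ) : ℝ)) ^ (Fintype.card κ) := by
    intro p
    calc (∏ i, (((2 * m).choose (p i) : ℕ) : ℝ))
        ≤ ∏ _i : κ, (((Nat.centralBinom m : ℕ) : ℝ)) := by
          refine Finset.prod_le_prod (fun i _ => Nat.cast_nonneg _) fun i _ => ?_
          exact_mod_cast Nat.choose_le_centralBinom (p i) m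
      _ = _ := by rw [Finset.prod_const, Finset.card_univ]
  have hsplit : ∑ p ∈ P, (ind C * refl V (ind C)).coeff (-(Z p)) *
      (∏ i, (((2 * m).choose (p i) : ℕ) : ℝ)) =
      ∑ p ∈ P', (ind C * refl V (ind C)).coeff (-(Z p)) *
      (∏ i, (((2 * m).choose (p i) : ℕ) : ℝ)) := by
    rw [hP', Finset.sum_filter]
    refine Finset.sum_congr rfl fun p _ => ?_
    split_ifs with h
    · rfl
    · rw [corr_eq_zero, zero_mul]
      intro h2
      apply h
      rw [Finset.mem_sub] at h2 ⊢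
      obtain ⟨a, ha, b, hb, hab⟩ := h2
      refine ⟨b, hb, a, ha, ?_⟩
      rw [← neg_sub, hab, neg_neg]
  have hcardP : P'.card ≤ M := by
    have hinj : Set.InjOn (fun (p : κ → ℕ) (i : κ) => ((p i : ℤ) - (m : ℤ))) (P' : Set (κ → ℕ)) := by
      intro p _ q _ h
      funext i
      have := congrFun h i
      simp only at this
      omega
    rw [← Finset.card_image_of_injOn hinj]
    refine hM _ ?_
    intro c hc
    rw [Finset.mem_image] at hc
    obtain ⟨p, hp, rfl⟩ := hc
    rw [hP', Finset.mem_filter] at hp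
    exact hp.2
  calc ∑ p ∈ P, (ind C * refl V (ind C)).coeff (-(Z p)) *
        (∏ i, (((2 * m).choose (p i) : ℕ) : ℝ))
      = ∑ p ∈ P', (ind C * refl V (ind C)).coeff (-(Z p)) *
        (∏ i, (((2 * m).choose (p i) : ℕ) : ℝ)) := hsplit
    _ ≤ ∑ _p ∈ P', (C.card : ℝ) * (((Nat.centralBinom m : ℕ) : ℝ)) ^ (Fintype.card κ) := by
        refine Finset.sum_le_sum fun p _ => ?_
        exact mul_le_mul (corr_le C _) (hbin p)
          (Finset.prod_nonneg fun i _ => Nat.cast_nonneg _) (Nat.cast_nonneg _)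
    _ = (P'.card : ℝ) * ((C.card : ℝ) * (((Nat.centralBinom m : ℕ) : ℝ)) ^ (Fintype.card κ)) := by
        rw [Finset.sum_const, nsmul_eq_mul]
    _ ≤ (M : ℝ) * ((C.card : ℝ) * (((Nat.centralBinom m : ℕ) : ℝ)) ^ (Fintype.card κ)) := by
        refine mul_le_mul_of_nonneg_right ?_ (by positivity)
        exact_mod_cast hcardP
    _ = _ := by ring

/-- the lower bound -/
lemma count_le [DecidableEq V] {ι : Type*} [DecidableEq ι] (v : ι → V) (U : Finset ι)
    (A : Finset V) (y : V) :
    (((U.powerset.filter (fun T => y + ∑ i ∈ T, v i ∈ A)).card : ℕ) : ℝ) ^ 2 * (A.card : ℝ) ≤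
      tau (ind (A + A) * refl V (ind (A + A)) * ∏ i ∈ U, ker (v i)) := by
  set g := ind (A + A) * refl V (ind (A + A)) with hg
  have hgN : Nn g := (ind_Nn _).mul (refl_Nn (ind_Nn _))
  set R : AddMonoidAlgebra ℝ V := ∏ i ∈ U, (1 + AddMonoidAlgebra.single (v i) (1 : ℝ)) with hR
  have hk : ∏ i ∈ U, ker (v i) = R * refl V R := by
    rw [hR, map_prod, ← Finset.prod_mul_distrib]
    refine Finset.prod_congr rfl fun i _ => ?_
    rw [map_add, map_one, refl_single]
    rfl
  have hR2 : R * refl V R = ∑ T ∈ U.powerset, ∑ T' ∈ U.powerset,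
      AddMonoidAlgebra.single (∑ i ∈ T, v i - ∑ i ∈ T', v i) (1 : ℝ) := by
    rw [hR, prod_one_add_single, map_sum, Finset.sum_mul_sum]
    refine Finset.sum_congr rfl fun x _ => Finset.sum_congr rfl fun y _ => ?_
    rw [refl_single, AddMonoidAlgebra.single_mul_single, one_mul, sub_eq_add_neg]
  rw [hk, hR2, Finset.mul_sum, tau_sum]
  simp_rw [Finset.mul_sum, tau_sum, tau_mul_single, mul_one]
  set S := U.powerset.filter (fun T => y + ∑ i ∈ T, v i ∈ A) with hS
  have hSU : S ⊆ U.powerset := Finset.filter_subset _ _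
  calc ((S.card : ℕ) : ℝ) ^ 2 * (A.card : ℝ)
      = ∑ _T ∈ S, ∑ _T' ∈ S, (A.card : ℝ) := by
        rw [Finset.sum_const, Finset.sum_const, nsmul_eq_mul, nsmul_eq_mul]; ring
    _ ≤ ∑ T ∈ S, ∑ T' ∈ S, g.coeff (-(∑ i ∈ T, v i - ∑ i ∈ T', v i)) := by
        refine Finset.sum_le_sum fun T hT => Finset.sum_le_sum fun T' hT' => ?_
        rw [hS, Finset.mem_filter] at hT hT'
        have := le_corr A _ _ hT'.2 hT.2
        have e : -(∑ i ∈ T, v i - ∑ i ∈ T', v i) =
            y + ∑ i ∈ T', v i - (y + ∑ i ∈ T, v i) := by abel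
        rw [e]
        exact this
    _ ≤ ∑ T ∈ S, ∑ T' ∈ U.powerset, g.coeff (-(∑ i ∈ T, v i - ∑ i ∈ T', v i)) := by
        refine Finset.sum_le_sum fun T _ => ?_
        exact Finset.sum_le_sum_of_subset_of_nonneg hSU fun T' _ _ => hgN _
    _ ≤ ∑ T ∈ U.powerset, ∑ T' ∈ U.powerset, g.coeff (-(∑ i ∈ T, v i - ∑ i ∈ T', v i)) :=
        Finset.sum_le_sum_of_subset_of_nonneg hSU fun T _ _ =>
          Finset.sum_nonneg fun T' _ => hgN _

end

/-- **Module H1.** -/
theorem stmtH1 : Pool.Agent.T6.H7.PF.StmtH1 := by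
  intro G _ _ A ι _ v s w M B y hA hdis hcard hM
  set m := 2 ^ s with hm
  set U : Finset ι := (range m).biUnion B with hU
  have hpd : Set.PairwiseDisjoint (↑(range m)) B := by
    intro t ht t' ht' hne
    exact hdis t (by simpa using ht) t' (by simpa using ht') hne
  have hprod : ∏ i ∈ U, ker (v i) = ∏ t ∈ range m, ∏ i ∈ B t, ker (v i) := by
    rw [hU, Finset.prod_biUnion hpd]
  set g := ind (A + A) * refl G (ind (A + A)) with hg
  set K : ℝ := (((Nat.centralBinom m : ℕ) : ℝ)) ^ w * ((A + A).card : ℝ) * (M : ℝ) with hK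
  have hK0 : 0 ≤ K := by positivity
  have htau : tau (g * ∏ t ∈ range m, ∏ i ∈ B t, ker (v i)) ^ m ≤ K ^ m := by
    have h := tau_holder_weighted (ind (A + A)) (ind_Nn _) (refl_Nn (ind_Nn _)) s
      (fun t => ∏ i ∈ B t, ker (v i))
      (fun t => by rw [map_prod]; exact Finset.prod_congr rfl fun i _ => refl_ker _)
      (fun t => Finset.prod_induction _ Nn (fun a b => Nn.mul) Nn.one fun i _ => ker_Nn _)
    refine h.trans ?_
    rw [← hm]
    calc ∏ t ∈ range m, tau (g * (∏ i ∈ B t, ker (v i)) ^ m) ≤ ∏ _t ∈ range m, K := by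
          refine Finset.prod_le_prod (fun t _ => ?_) fun t ht => ?_
          · refine (Nn.mul ((ind_Nn _).mul (refl_Nn (ind_Nn _))) (Nn.pow ?_ m)) 0
            exact Finset.prod_induction _ Nn (fun a b => Nn.mul) Nn.one fun i _ => ker_Nn _
          · rw [Finset.mem_range] at ht
            rw [← Finset.prod_coe_sort (B t) (fun i => ker (v i))]
            have := tau_moment (fun i : (B t) => v i) (A + A) M m (hM t ht)
            rw [Fintype.card_coe, hcard t ht] at this
            exact this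
      _ = K ^ m := by rw [Finset.prod_const, Finset.card_range]
  have hm0 : m ≠ 0 := by rw [hm]; positivity
  have htau2 : tau (g * ∏ i ∈ U, ker (v i)) ≤ K := by
    rw [hprod]
    exact le_of_pow_le_pow_left₀ hm0 hK0 htau
  have hc := (count_le v U A y).trans htau2
  set f : ℝ := (((U.powerset.filter (fun T => y + ∑ i ∈ T, v i ∈ A)).card : ℕ) : ℝ) with hf
  have hf0 : 0 ≤ f := Nat.cast_nonneg _
  have h2 := pow_le_pow_left₀ (by positivity) hc 2
  have h3 : ((((Nat.centralBinom m : ℕ) : ℝ)) ^ 2 * (2 * m + 1)) ^ w ≤ ((16 : ℝ) ^ m) ^ w := by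
    refine pow_le_pow_left₀ (by positivity) ?_ w
    exact_mod_cast centralBinom_sq m
  have hmr : (2 * 2 ^ s + 1 : ℝ) = 2 * (m : ℝ) + 1 := by rw [hm]; push_cast; ring
  rw [hmr]
  calc f ^ 4 * (A.card : ℝ) ^ 2 * (2 * (m : ℝ) + 1) ^ w
      = (f ^ 2 * (A.card : ℝ)) ^ 2 * (2 * (m : ℝ) + 1) ^ w := by ring
    _ ≤ K ^ 2 * (2 * (m : ℝ) + 1) ^ w := mul_le_mul_of_nonneg_right h2 (by positivity)
    _ = ((A + A).card : ℝ) ^ 2 * (M : ℝ) ^ 2 *
        ((((Nat.centralBinom m : ℕ) : ℝ)) ^ 2 * (2 * m + 1)) ^ w := by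
        rw [hK, mul_pow (_ ^ 2 : ℝ)]
        rw [← pow_mul, mul_comm 2 w, pow_mul]; ring
    _ ≤ ((A + A).card : ℝ) ^ 2 * (M : ℝ) ^ 2 * ((16 : ℝ) ^ m) ^ w :=
        mul_le_mul_of_nonneg_left h3 (by positivity)
    _ = ((A + A).card : ℝ) ^ 2 * (M : ℝ) ^ 2 * (16 : ℝ) ^ (m * w) := by rw [← pow_mul]

end Pool.Agent.T6.H69.PF
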